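import Pool.Agent.PFJ.StmtsG

/-!
# Row G_BOA of squad PFJ (MP_e54c4c_gt): elementary facts on boxes
-/

set_option autoImplicit false

open Matrix Filter Topology

namespace Pool.Agent.PFJ.H18

open Pool.Agent.PFS Pool.Agent.PFJ

variable {n : ℕ}

theorem img_iSup {K : ℕ} (g : GL (Fin n) ℝ) (L : Fin K → Submodule ℝ (V n)) :
    (⨆ a, img g (L a)) = img g (⨆ a, L a) := by
  unfold img
  rw [Submodule.map_iSup]

theorem finrank_img (g : GL (Fin n) ℝ) (U : Submodule ℝ (V n)) :
    Module.finrank ℝ ↥(img g U) = Module.finrank ℝ ↥U := by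
  have hinj : Function.Injective
      (Matrix.mulVecLin (g : Matrix (Fin n) (Fin n) ℝ)) := by
    intro x y hxy
    exact CC.act_injective g hxy
  exact ((Submodule.equivMapOfInjective _ hinj U).finrank_eq).symm

theorem mem_iSup_iff {K : ℕ} (L : Fin K → Submodule ℝ (V n)) (x : V n) :
    x ∈ (⨆ a, L a) ↔ ∃ y : Fin K → V n, (∀ a, y a ∈ L a) ∧ ∑ a, y a = x := by
  classical
  constructor
  · intro hx
    let T : Submodule ℝ (V n) :=
      { carrier := {x | ∃ y : Fin K → V n, (∀ a, y a ∈ L a) ∧ ∑ a, y a = x}
        add_mem' := by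
          rintro u v ⟨y, hy, rfl⟩ ⟨z, hz, rfl⟩
          exact ⟨fun a => y a + z a, fun a => (L a).add_mem (hy a) (hz a),
            Finset.sum_add_distrib⟩
        zero_mem' := ⟨fun _ => 0, fun a => (L a).zero_mem, by simp⟩
        smul_mem' := by
          rintro c u ⟨y, hy, rfl⟩
          exact ⟨fun a => c • y a, fun a => (L a).smul_mem c (hy a),
            (Finset.smul_sum).symm⟩ }
    have hle : (⨆ a, L a) ≤ T := by
      refine iSup_le fun a u hu => ?_
      refine ⟨fun b => if b = a then u else 0, fun b => ?_, ?_⟩
      · by_cases hb : b = a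
        · subst hb; simp [hu]
        · simp [hb]
      · simp
    exact hle hx
  · rintro ⟨y, hy, rfl⟩
    exact Submodule.sum_mem _ fun a _ => Submodule.mem_iSup_of_mem a (hy a)

theorem ind_of_comp {K : ℕ} {C : Set (V n)} (hC : PCone C) {L : Fin K → Submodule ℝ (V n)}
    (hcomp : ∀ x : Fin K → V n, (∀ a, x a ∈ L a) → ∑ a, x a ∈ closure C →
      ∀ a, x a ∈ closure C) (y : Fin K → V n) (hy : ∀ a, y a ∈ L a) (hs : ∑ a, y a = 0) :
    ∀ a, y a = 0 := by
  intro a
  have h1 := hcomp y hy (by rw [hs]; exact hC.zero_cl) a
  have h2 := hcomp (fun b => - y b) (fun b => (L b).neg_mem (hy b))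
    (by rw [Finset.sum_neg_distrib, hs, neg_zero]; exact hC.zero_cl) a
  exact hC.salient _ h1 h2

theorem g_boa (hELM : Pool.Agent.PFS.ElmStmt) : BoaStmt := by
  intro n C Γ hCC K L w β hB
  have hpc : PCone C := hCC.toPCone
  obtain ⟨e1, e2, -, -, -⟩ := hELM n C Γ hCC (Fin K) w hB.pes
  refine ⟨?_, ?_, ?_, ?_, ?_, ?_⟩
  · intro c hc
    exact
      { pes := e1 c hc
        mem := fun i => (L (β i)).smul_mem _ (hB.mem i)
        comp := hB.comp
        bot := hB.bot
        one := by
          intro i hi x hx
          obtain ⟨d, hd⟩ := hB.one i hi x hx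
          refine ⟨d * (c i)⁻¹, ?_⟩
          rw [smul_smul, mul_assoc, inv_mul_cancel₀ (hc i).ne', mul_one]
          exact hd
        two := hB.two
        three := hB.three }
  · intro g hg s hs
    exact
      { pes := e2 g hg s hs
        mem := by
          intro i
          exact ⟨s • w i, (L (β i)).smul_mem _ (hB.mem i), CC.act_smul g s (w i)⟩
        comp := by
          intro x hx hsum
          choose y hy hyx using hx
          have hyx' : ∀ a, act g (y a) = x a := hyx
          have h1 : act g (∑ a, y a) ∈ closure C := by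
            rw [CC.act_sum]
            simp only [hyx']
            exact hsum
          have h2 := hB.comp y hy ((hCC.act_cl_iff hg).1 h1)
          intro a
          rw [← hyx' a]
          exact (hCC.act_cl_iff hg).2 (h2 a)
        bot := by
          intro a ha
          have h1 := hB.bot a ha
          change img g (L a) = ⊥
          rw [h1]
          unfold img
          exact Submodule.map_bot _
        one := by
          intro i hi x hx
          obtain ⟨y, hy, hyx⟩ := mem_img.1 hx
          obtain ⟨d, hd⟩ := hB.one i hi y hy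
          refine ⟨d * s⁻¹, ?_⟩
          rw [smul_smul, mul_assoc, inv_mul_cancel₀ hs.ne', mul_one, ← hyx, hd, CC.act_smul]
        two := by
          intro i j hij hb
          rw [finrank_img]
          exact hB.two i j hij hb
        three := hB.three }
  · intro g
    exact img_iSup g L
  · intro g U
    exact finrank_img g U
  · intro x
    exact mem_iSup_iff L x
  · intro y hy hs
    exact ind_of_comp hpc hB.comp y hy hs

end Pool.Agent.PFJ.H18
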