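import Pool.Agent.PFJ.StmtsG
import Pool.Agent.PFB.StmtsG

/-!
# Row G_FCU of squad PFJ (MP_e54c4c_gt): the factors of a box are faces
-/

set_option autoImplicit false

open Matrix Filter Topology

namespace Pool.Agent.PFJ.H18

open Pool.Agent.PFS Pool.Agent.PFJ

variable {n : ℕ}

theorem lamC_cl {C : Set (V n)} (hC : PCone C) {Γ : Subgroup (GL (Fin n) ℝ)} {x : V n}
    (hx : x ∈ LamC C Γ) : x ∈ closure C := by
  obtain ⟨t, ht, u, hu, rfl⟩ := hx
  exact hC.cl_smul hu.2.1 ht.le

theorem cl_neg_smul {C : Set (V n)} (hC : PCone C) {y : V n} {ε : ℝ} (hε : 0 < ε)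
    (h1 : y ∈ closure C) (h2 : -(ε • y) ∈ closure C) : y = 0 := by
  have h3 : ε • y = 0 := hC.salient _ (hC.cl_smul h1 hε.le) h2
  rcases smul_eq_zero.1 h3 with h4 | h4
  · exact absurd h4 hε.ne'
  · exact h4

theorem g_fcu (hBOA : BoaStmt) (hFCE : Pool.Agent.PFB.FceStmt) : FcuStmt := by
  classical
  intro n C Γ hCC K hK L w β hB hF i0 u hu
  have hpc : PCone C := hCC.toPCone
  obtain ⟨-, -, -, -, b5, -⟩ := hBOA n C Γ hCC K L w β hB
  have hwc : ∀ i, w i ∈ closure C := fun i => lamC_cl hpc (hB.pes.2 i)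
  have hpes : PES C w := hB.pes.1
  set a := β i0 with ha
  -- the partial sums
  let U : Fin K → V n := fun b => ∑ i ∈ Finset.univ.filter (fun i => β i = b), w i
  have hUu : U a = u := hu.symm
  have hUL : ∀ b, U b ∈ L b := by
    intro b
    refine Submodule.sum_mem _ fun i hi => ?_
    have h1 : β i = b := (Finset.mem_filter.1 hi).2
    rw [← h1]
    exact hB.mem i
  have hUC : ∀ b, U b ∈ closure C := fun b => hpc.cl_sum fun i _ => hwc i
  have hUs : ∑ b, U b = ∑ i, w i := Finset.sum_fiberwise Finset.univ β w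
  have huL : u ∈ L a := hUu ▸ hUL a
  have hucl : u ∈ closure C := hUu ▸ hUC a
  have hsumC : ∑ i, w i ∈ C := by
    have h1 := hpes.pos (fun _ => 1) (fun _ => one_pos)
    simpa using h1
  -- an index outside the fibre
  have hout : ∃ i, β i ≠ a := by
    by_contra hcon
    have hall : ∀ i, β i = a := fun i => by
      by_contra h
      exact hcon ⟨i, h⟩
    let x0 : Fin K := ⟨0, by omega⟩
    let x1 : Fin K := ⟨1, by omega⟩
    let x2 : Fin K := ⟨2, by omega⟩
    have h := hB.three x0 x1 x2 ((hall x0).trans (hall x1).symm) ((hall x1).trans (hall x2).symm)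
    rcases h with h | h | h
    · have := congrArg Fin.val h; simp [x0, x1] at this
    · have := congrArg Fin.val h; simp [x1, x2] at this
    · have := congrArg Fin.val h; simp [x0, x2] at this
  have huC : u ∉ C := by
    obtain ⟨i, hi⟩ := hout
    have h1 := hpes.bd (fun j => if β j = a then 1 else 0) (fun j => by
      by_cases h : β j = a <;> simp [h]) ⟨i, by simp [hi]⟩
    have h2 : ∑ j, (if β j = a then (1 : ℝ) else 0) • w j = u := by
      rw [← hUu]
      change _ = ∑ i ∈ Finset.univ.filter (fun i => β i = a), w i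
      rw [Finset.sum_filter]
      refine Finset.sum_congr rfl fun j _ => ?_
      by_cases h : β j = a <;> simp [h]
    rw [h2] at h1
    exact h1
  have hu0 : u ≠ 0 := by
    intro h0
    have h1 := hpes.bd (fun j => if β j = a then 0 else 1) (fun j => by
      by_cases h : β j = a <;> simp [h]) ⟨i0, by simp [ha]⟩
    apply h1
    have h2 : ∑ j, (if β j = a then (0 : ℝ) else 1) • w j = (∑ j, w j) - u := by
      rw [← hUu]
      change _ = _ - ∑ i ∈ Finset.univ.filter (fun i => β i = a), w i
      rw [Finset.sum_filter, ← Finset.sum_sub_distrib]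
      refine Finset.sum_congr rfl fun j _ => ?_
      by_cases h : β j = a <;> simp [h]
    rw [h2, h0, sub_zero]
    exact hsumC
  -- the unit property of `u`
  have hunit : ∀ z ∈ L a, ∃ M : ℝ, 0 < M ∧ M • u - z ∈ closure C := by
    intro z hz
    obtain ⟨M, hM, hMz⟩ := hpc.absorb hsumC z
    refine ⟨M, hM, ?_⟩
    have h1 := hB.comp (fun b => M • U b - (if b = a then z else 0)) (fun b => by
      refine (L b).sub_mem ((L b).smul_mem _ (hUL b)) ?_
      by_cases hb : b = a
      · subst hb; simpa using hz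
      · simp [hb]) (by
        rw [Finset.sum_sub_distrib, ← Finset.smul_sum, hUs]
        simp only [Finset.sum_ite_eq', Finset.mem_univ, if_true]
        exact subset_closure hMz) a
    simpa [hUu] using h1
  have hface : ∀ y, y ∈ Face C u ↔ Unt C (L a) y := by
    intro y
    constructor
    · rintro ⟨ε, hε, h1, h2⟩
      have hyC : y ∈ closure C := by
        have h3 := hpc.cl_add h2 (hpc.cl_smul hucl hε.le)
        rwa [sub_add_cancel] at h3
      have huW : u ∈ (⨆ b, L b) := Submodule.mem_iSup_of_mem a huL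
      have hyW : y ∈ (⨆ b, L b) := hF u huW hucl huC y ⟨ε, hε, h1, h2⟩
      obtain ⟨v, hv, hvy⟩ := (b5 y).1 hyW
      have hvc : ∀ b, v b ∈ closure C := hB.comp v hv (by rw [hvy]; exact hyC)
      have h4 := hB.comp (fun b => (if b = a then u else 0) - ε • v b) (fun b => by
        refine (L b).sub_mem ?_ ((L b).smul_mem _ (hv b))
        by_cases hb : b = a
        · subst hb; simpa using huL
        · simp [hb]) (by
          rw [Finset.sum_sub_distrib, ← Finset.smul_sum, hvy]
          simp only [Finset.sum_ite_eq', Finset.mem_univ, if_true]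
          exact h1)
      have h5 : ∀ b, b ≠ a → v b = 0 := by
        intro b hb
        have h6 := h4 b
        simp only [hb, if_false, zero_sub] at h6
        exact cl_neg_smul hpc hε (hvc b) h6
      have h7 : y = v a := by
        rw [← hvy]
        refine Finset.sum_eq_single a (fun b _ hb => h5 b hb) (fun h => absurd (Finset.mem_univ a) h)
      refine ⟨h7 ▸ hv a, hyC, ?_⟩
      intro z hz
      obtain ⟨M, hM, hMz⟩ := hunit z hz
      refine ⟨M / ε, div_pos hM hε, ?_⟩
      have h8 := hpc.cl_add (hpc.cl_smul h2 (div_pos hM hε).le) hMz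
      have h9 : (M / ε) • (y - ε • u) + (M • u - z) = (M / ε) • y - z := by
        rw [smul_sub, smul_smul, div_mul_cancel₀ _ hε.ne']
        abel
      rwa [h9] at h8
    · rintro ⟨hyL, hyC, hy⟩
      obtain ⟨M, hM, hMu⟩ := hy u huL
      obtain ⟨M', hM', hMy⟩ := hunit y hyL
      refine ⟨min M⁻¹ M'⁻¹, lt_min (inv_pos.2 hM) (inv_pos.2 hM'), ?_, ?_⟩
      · have h1 := hpc.cl_smul hMy (inv_pos.2 hM').le
        rw [smul_sub, smul_smul, inv_mul_cancel₀ hM'.ne', one_smul] at h1
        have h2 := hpc.cl_add h1 (hpc.cl_smul hyC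
          (sub_nonneg.2 (min_le_right M⁻¹ M'⁻¹)))
        have h3 : u - M'⁻¹ • y + (M'⁻¹ - min M⁻¹ M'⁻¹) • y = u - min M⁻¹ M'⁻¹ • y := by
          rw [sub_smul]; abel
        rwa [h3] at h2
      · have h1 := hpc.cl_smul hMu (inv_pos.2 hM).le
        rw [smul_sub, smul_smul, inv_mul_cancel₀ hM.ne', one_smul] at h1
        have h2 := hpc.cl_add h1 (hpc.cl_smul hucl
          (sub_nonneg.2 (min_le_left M⁻¹ M'⁻¹)))
        have h3 : y - M⁻¹ • u + (M⁻¹ - min M⁻¹ M'⁻¹) • u = y - min M⁻¹ M'⁻¹ • u := by
          rw [sub_smul]; abel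
        rwa [h3] at h2
  have huF : u ∈ Face C u := (hface u).2 ⟨huL, hucl, hunit⟩
  have hspan : Submodule.span ℝ (Face C u) = L a := by
    refine le_antisymm (Submodule.span_le.2 fun y hy => ((hface y).1 hy).1) ?_
    intro z hz
    obtain ⟨M, hM, hMz⟩ := hunit (-z) ((L a).neg_mem hz)
    rw [sub_neg_eq_add] at hMz
    have h1 : (M + 1) • u + z ∈ Face C u := by
      refine (hface _).2 ⟨(L a).add_mem ((L a).smul_mem _ huL) hz, ?_, ?_⟩
      · have h2 := hpc.cl_add hMz hucl
        have h3 : M • u + z + u = (M + 1) • u + z := by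
          rw [add_smul, one_smul]; abel
        rwa [h3] at h2
      · intro z' hz'
        obtain ⟨M', hM', hMz'⟩ := hunit z' hz'
        refine ⟨M', hM', ?_⟩
        have h2 := hpc.cl_add (hpc.cl_smul hMz hM'.le) hMz'
        have h3 : M' • (M • u + z) + (M' • u - z') = M' • ((M + 1) • u + z) - z' := by
          rw [smul_add, smul_add, add_smul, one_smul, smul_add]; abel
        rwa [h3] at h2
    have h2 : z = ((M + 1) • u + z) - (M + 1) • u := by abel
    rw [h2]
    exact Submodule.sub_mem _ (Submodule.subset_span h1)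
      (Submodule.smul_mem _ _ (Submodule.subset_span huF))
  refine ⟨hucl, huC, hu0, hface, hspan, ?_⟩
  obtain ⟨-, -, -, -, f5, -⟩ := hFCE n C hpc u hucl hu0
  intro y
  rw [f5 y, hspan]

end Pool.Agent.PFJ.H18
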